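import Pool.Agent.H88.WR.Targets

/-!
KEY: a reflexive space with compact operators only (row KEY of the board wmr_modules,
MP_479f73_an).
-/

set_option autoImplicit false

open Filter Topology Set

namespace Pool.Agent.H89.WR

open Pool.Agent.H85.WMP Pool.Agent.H88.WR

theorem pf_KEY (𝕜 : Type) [RCLike 𝕜] (hFAM : T_FAM 𝕜) (hTNE : T_TNE 𝕜) (hSPE : T_SPE 𝕜)
    (hRFX : T_RFX 𝕜) (hIND : T_IND 𝕜) (hOPM : T_OPM 𝕜) : T_KEY 𝕜 := by
  intro F _ _ _ _ hC0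
  obtain ⟨M, hG, hprop⟩ := hFAM F hC0
  obtain ⟨N, hN⟩ := hTNE M hG.empty
  obtain ⟨S⟩ := hSPE M N hN
  refine ⟨S.D, inferInstance, inferInstance, inferInstance, hIND M N hN S,
    hRFX M N hG hN S, ?_⟩
  intro T
  by_contra hT
  obtain ⟨m, y, δ, K, hm, hδ, hy, h⟩ := hOPM M N hG hN S F T hT
  exact hprop m y δ K hm hδ hy h

end Pool.Agent.H89.WR
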